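import Pool.Agent.L7h10.AB.Stm2

/-! Part CB of project AB. -/

set_option autoImplicit false

namespace Pool.Agent.L7h14.AB

open Polynomial Pool.Agent.L7h10.AB

lemma fib {A B : Type} [Finite A] [Finite B] (P : A → B → Prop) (M : ℕ)
    (h : ∀ a, Nat.card {y // P a y} ≤ M) :
    Nat.card {x : A × B // P x.1 x.2} ≤ Nat.card A * M := by
  classical
  have := Fintype.ofFinite A
  have e : {x : A × B // P x.1 x.2} ≃ Σ a, {y // P a y} :=
    ⟨fun x => ⟨x.1.1, x.1.2, x.2⟩, fun x => ⟨(x.1, x.2.1), x.2.2⟩, fun _ => rfl, fun _ => rfl⟩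
  rw [Nat.card_congr e, Nat.card_sigma]
  calc ∑ a, Nat.card {y // P a y} ≤ ∑ _a : A, M := Finset.sum_le_sum fun a _ => h a
    _ = _ := by simp [Nat.card_eq_fintype_card]

lemma uni3 {A : Type} [Finite A] (P A1 A2 A3 : A → Prop) (a1 a2 a3 : ℕ)
    (h : ∀ x, P x → A1 x ∨ A2 x ∨ A3 x)
    (h1 : Nat.card {x // A1 x} ≤ a1) (h2 : Nat.card {x // A2 x} ≤ a2)
    (h3 : Nat.card {x // A3 x} ≤ a3) :
    Nat.card {x // P x} ≤ a1 + a2 + a3 := by
  have e : {x | P x} ⊆ ({x | A1 x} ∪ {x | A2 x}) ∪ {x | A3 x} := by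
    intro x hx
    rcases h x hx with h | h | h
    · exact Or.inl (Or.inl h)
    · exact Or.inl (Or.inr h)
    · exact Or.inr h
  have h0 := Set.ncard_le_ncard e (Set.toFinite _)
  have h4 := Set.ncard_union_le ({x | A1 x} ∪ {x | A2 x}) {x | A3 x}
  have h5 := Set.ncard_union_le {x | A1 x} {x | A2 x}
  change Set.ncard {x | P x} ≤ _
  change Set.ncard {x | A1 x} ≤ _ at h1
  change Set.ncard {x | A2 x} ≤ _ at h2
  change Set.ncard {x | A3 x} ≤ _ at h3
  omega

/-- a polynomial of degree less than the characteristic which vanishes at `b` and whose derivative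
is divisible by `(X - b) ^ 2` is divisible by `(X - b) ^ 3` -/
lemma cube {K : Type} [Field K] (p : ℕ) [CharP K p] (F : K[X]) (b : K) (hF : F.natDegree < p)
    (h0 : F.eval b = 0) (h2 : (X - C b) ^ 2 ∣ derivative F) : (X - C b) ^ 3 ∣ F := by
  have h1 : X - C b ∣ F := dvd_iff_isRoot.2 h0
  obtain ⟨u, hu⟩ := h1
  -- F = (X - b) u, F' = u + (X - b) u'
  have hX : (X - C b) ≠ 0 := X_sub_C_ne_zero b
  by_cases hF0 : F = 0
  · rw [hF0]; exact dvd_zero _
  have hdF : derivative F = u + (X - C b) * derivative u := by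
    rw [hu, derivative_mul]; simp
  have hub : X - C b ∣ u := by
    have : X - C b ∣ derivative F := (dvd_pow_self _ two_ne_zero).trans h2
    rw [hdF] at this
    exact (dvd_add_left (dvd_mul_right _ _)).1 this
  obtain ⟨w, hw⟩ := hub
  have hdF2 : derivative F = (X - C b) * (2 * w + (X - C b) * derivative w) := by
    rw [hdF, hw, derivative_mul]; simp; ring
  have hdeg : F.natDegree = 2 + w.natDegree := by
    have hw0 : w ≠ 0 := by rintro rfl; rw [hw] at hu; exact hF0 (by rw [hu]; ring)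
    rw [hu, hw, natDegree_mul hX (mul_ne_zero hX hw0), natDegree_mul hX hw0, natDegree_X_sub_C]
    ring
  have h2K : (2 : K) ≠ 0 := by
    intro h
    have h' : ((2 : ℕ) : K) = 0 := by exact_mod_cast h
    have := Nat.le_of_dvd two_pos ((CharP.cast_eq_zero_iff K p 2).1 h')
    omega
  have hwb : X - C b ∣ w := by
    rw [hdF2, pow_two] at h2
    have h3 := (mul_dvd_mul_iff_left hX).1 h2
    have h4 : X - C b ∣ 2 * w := (dvd_add_left (dvd_mul_right _ _)).1 h3
    rw [dvd_iff_isRoot, IsRoot.def, eval_mul] at h4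
    rw [dvd_iff_isRoot, IsRoot.def]
    rcases mul_eq_zero.1 h4 with h | h
    · exact absurd (by simpa using h) h2K
    · exact h
  obtain ⟨z, hz⟩ := hwb
  exact ⟨z, by rw [hu, hw, hz]; ring⟩

/-- the number of `h` with a given residue -/
lemma res1 (hR : S_RES) {K : Type} [Field K] [Finite K] (m : ℕ) [Finite (Mon K m)] (u g : K[X])
    (hu : u.Monic) (hm : u.natDegree ≤ m) (hg : IsCoprime u g) (c : K[X]) :
    Nat.card {h : Mon K m // u ∣ g * h.1 - c} ≤ Nat.card K ^ (m - u.natDegree) := by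
  rcases isEmpty_or_nonempty {h : Mon K m // u ∣ g * h.1 - c} with he | ⟨⟨h0, hh0⟩⟩
  · simp
  rw [← hR K m u h0.1 hu hm]
  refine Nat.card_le_card_of_injective
    (fun h : {h : Mon K m // u ∣ g * h.1 - c} => (⟨h.1, ?_⟩ : {h : Mon K m // u ∣ h.1 - h0.1})) ?_
  · have h1 : u ∣ g * (h.1.1 - h0.1) := by
      have := dvd_sub h.2 hh0
      rwa [show g * h.1.1 - c - (g * h0.1 - c) = g * (h.1.1 - h0.1) by ring] at this
    exact hg.dvd_of_dvd_mul_left h1
  · intro x y hxy
    simpa [Subtype.ext_iff] using hxy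

theorem s_CB : S_CB := by
  intro hC hR K _ _ p _ n hn hp
  have f2 : Finite (Mon K 2) := (hC K 2).1
  have f3 : Finite (Mon K (n - 3)) := (hC K (n - 3)).1
  have f4 : Finite (Mon K (n - 2)) := (hC K (n - 2)).1
  have q0 : 0 < Nat.card K := Nat.card_pos
  obtain ⟨q, hq⟩ : ∃ q, q = Nat.card K := ⟨_, rfl⟩
  -- injectivity: `k` is determined
  have hinj : Nat.card {x : (K × Mon K (n - 2)) × (Mon K 2 × Mon K (n - 3)) //
      (X - C x.1.1) ^ 2 * x.1.2.1 = C ((n : K) + 1)⁻¹ * derivative (x.2.1.1 ^ 2 * x.2.2.1)} ≤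
      Nat.card {y : K × (Mon K 2 × Mon K (n - 3)) //
        (X - C y.1) ^ 2 ∣ derivative (y.2.1.1 ^ 2 * y.2.2.1)} := by
    refine Nat.card_le_card_of_injective (fun x => ⟨(x.1.1.1, x.1.2), ?_⟩) ?_
    · have h := x.2
      have hn1 : ((n : K) + 1) ≠ 0 := by
        intro h
        have h' : ((n + 1 : ℕ) : K) = 0 := by push_cast; exact h
        have := Nat.le_of_dvd (Nat.succ_pos n) ((CharP.cast_eq_zero_iff K p (n + 1)).1 h')
        omega
      refine ⟨C ((n : K) + 1) * x.1.1.2.1, ?_⟩
      have h2 : derivative (x.1.2.1.1 ^ 2 * x.1.2.2.1) =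
          C ((n : K) + 1) * (C ((n : K) + 1)⁻¹ * derivative (x.1.2.1.1 ^ 2 * x.1.2.2.1)) := by
        rw [← mul_assoc, ← C_mul, mul_inv_cancel₀ hn1, C_1, one_mul]
      rw [h2, ← h]
      ring
    · intro x y hxy
      have h1 : x.1.1.1 = y.1.1.1 := by
        have := congrArg (fun z => z.1.1) hxy; simpa using this
      have h2 : x.1.2 = y.1.2 := by
        have := congrArg (fun z => z.1.2) hxy; simpa using this
      have h3 : x.1.1.2 = y.1.1.2 := by
        apply Subtype.ext
        have e1 := x.2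
        have e2 := y.2
        rw [h1, h2] at e1
        rw [← e2] at e1
        exact mul_left_cancel₀ (pow_ne_zero 2 (X_sub_C_ne_zero _)) e1
      apply Subtype.ext
      exact Prod.ext (Prod.ext h1 h3) h2
  refine hinj.trans ?_
  have key : ∀ b : K, Nat.card {y : Mon K 2 × Mon K (n - 3) //
      (X - C b) ^ 2 ∣ derivative (y.1.1 ^ 2 * y.2.1)} ≤ 3 * Nat.card K ^ (n - 3) := by
    intro b
    have hXb : (X - C b).Monic := monic_X_sub_C b
    have hd1 : (X - C b).natDegree = 1 := natDegree_X_sub_C b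
    have hd3 : ((X - C b) ^ 3).natDegree = 3 := by rw [hXb.natDegree_pow, hd1]
    have hirr : Irreducible (X - C b) := irreducible_X_sub_C b
    have hpr : Prime (X - C b) := hirr.prime
    -- A1
    have hA1 : Nat.card {y : Mon K 2 × Mon K (n - 3) // ¬ (X - C b) ∣ y.1.1 ∧
        ∃ c : K, (X - C b) ^ 3 ∣ y.1.1 ^ 2 * y.2.1 - C c} ≤ Nat.card K ^ (n - 3) := by
      have h1 := fib (A := Mon K 2) (B := Mon K (n - 3)) (fun g h => ¬ (X - C b) ∣ g.1 ∧
        ∃ c : K, (X - C b) ^ 3 ∣ g.1 ^ 2 * h.1 - C c) (Nat.card K * Nat.card K ^ (n - 6)) (by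
          intro g
          by_cases hg : (X - C b) ∣ g.1
          · have : IsEmpty {y : Mon K (n - 3) // ¬ (X - C b) ∣ g.1 ∧
                ∃ c : K, (X - C b) ^ 3 ∣ g.1 ^ 2 * y.1 - C c} := ⟨fun y => y.2.1 hg⟩
            simp
          · have hcop : IsCoprime ((X - C b) ^ 3) (g.1 ^ 2) :=
              ((hirr.coprime_iff_not_dvd).2 hg).pow
            have h2 := fib (A := K) (B := Mon K (n - 3)) (fun c h =>
              (X - C b) ^ 3 ∣ g.1 ^ 2 * h.1 - C c) (Nat.card K ^ (n - 6)) (by
                intro c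
                have h3 := res1 hR (n - 3) ((X - C b) ^ 3) (g.1 ^ 2) (hXb.pow 3)
                  (by rw [hd3]; omega) hcop (C c)
                rw [hd3, show n - 3 - 3 = n - 6 by omega] at h3
                exact h3)
            refine le_trans ?_ h2
            refine Nat.card_le_card_of_injective
              (fun h => ⟨(h.2.2.choose, h.1), h.2.2.choose_spec⟩) ?_
            intro x y hxy
            have := congrArg (fun z => z.1.2) hxy
            exact Subtype.ext (by simpa using this))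
      rw [(hC K 2).2] at h1
      refine h1.trans (le_of_eq ?_)
      rw [← pow_succ', ← pow_add]
      congr 1
      omega
    -- A2
    have hA2 : Nat.card {y : Mon K 2 × Mon K (n - 3) // (X - C b) ∣ y.1.1 ∧ (X - C b) ∣ y.2.1} ≤
        Nat.card K ^ (n - 3) := by
      have e : {y : Mon K 2 × Mon K (n - 3) // (X - C b) ∣ y.1.1 ∧ (X - C b) ∣ y.2.1} ≃
          {h : Mon K 2 // (X - C b) ∣ h.1 - 0} × {h : Mon K (n - 3) // (X - C b) ∣ h.1 - 0} :=
        ⟨fun y => (⟨y.1.1, by simpa using y.2.1⟩, ⟨y.1.2, by simpa using y.2.2⟩),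
          fun y => ⟨(y.1.1, y.2.1), by simpa using y.1.2, by simpa using y.2.2⟩,
          fun _ => rfl, fun _ => rfl⟩
      rw [Nat.card_congr e, Nat.card_prod, hR K 2 (X - C b) 0 hXb (by rw [hd1]; omega),
        hR K (n - 3) (X - C b) 0 hXb (by rw [hd1]; omega), hd1, ← pow_add]
      exact le_of_eq (by congr 1; omega)
    -- A3
    have hA3 : Nat.card {y : Mon K 2 × Mon K (n - 3) // y.1.1 = (X - C b) ^ 2} ≤
        Nat.card K ^ (n - 3) := by
      rw [← (hC K (n - 3)).2]
      refine Nat.card_le_card_of_injective (fun y => y.1.2) ?_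
      intro x y hxy
      apply Subtype.ext
      exact Prod.ext (Subtype.ext (x.2.trans y.2.symm)) hxy
    have hu := uni3 (fun y : Mon K 2 × Mon K (n - 3) =>
      (X - C b) ^ 2 ∣ derivative (y.1.1 ^ 2 * y.2.1)) _ _ _ _ _ _ (by
        intro y hy
        have hdeg : ∀ c : K, (y.1.1 ^ 2 * y.2.1 - C c).natDegree < p := by
          intro c
          rw [natDegree_sub_C]
          have := natDegree_mul_le (p := y.1.1 ^ 2) (q := y.2.1)
          have h2 := natDegree_pow_le (p := y.1.1) (n := 2)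
          rw [y.1.2.2] at h2
          rw [y.2.2.2] at this
          omega
        have hcube : (X - C b) ^ 3 ∣ y.1.1 ^ 2 * y.2.1 - C ((y.1.1 ^ 2 * y.2.1).eval b) := by
          refine cube p _ b (hdeg _) (by simp) ?_
          rw [derivative_sub, derivative_C, sub_zero]
          exact hy
        by_cases h1 : (X - C b) ∣ y.1.1
        · by_cases h2 : (X - C b) ∣ y.2.1
          · exact Or.inr (Or.inl ⟨h1, h2⟩)
          · right; right
            have h0 : (y.1.1 ^ 2 * y.2.1).eval b = 0 := by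
              have : y.1.1.eval b = 0 := dvd_iff_isRoot.1 h1
              simp [this]
            rw [h0, C_0, sub_zero] at hcube
            have hcop : IsCoprime ((X - C b) ^ 3) y.2.1 :=
              ((hirr.coprime_iff_not_dvd).2 h2).pow_left
            have h3 : (X - C b) ^ 3 ∣ y.1.1 ^ 2 := hcop.dvd_of_dvd_mul_right hcube
            obtain ⟨l, hl⟩ := h1
            have h4 : X - C b ∣ l := by
              rw [hl, mul_pow] at h3
              have h5 : (X - C b) ^ 2 * (X - C b) ∣ (X - C b) ^ 2 * l ^ 2 := by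
                rw [← pow_succ]; exact h3
              exact hpr.dvd_of_dvd_pow
                ((mul_dvd_mul_iff_left (pow_ne_zero 2 (X_sub_C_ne_zero b))).1 h5)
            obtain ⟨z, hz⟩ := h4
            have hmo := y.1.2.1
            have hnd := y.1.2.2
            have hyz : y.1.1 = (X - C b) ^ 2 * z := by rw [hl, hz]; ring
            have hz1 : z.Monic := by
              rw [hyz] at hmo
              exact (hXb.pow 2).of_mul_monic_left hmo
            have hz0 : z.natDegree = 0 := by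
              rw [hyz, (hXb.pow 2).natDegree_mul hz1, hXb.natDegree_pow, hd1] at hnd
              omega
            rw [hyz, eq_one_of_monic_natDegree_zero hz1 hz0, mul_one]
        · exact Or.inl ⟨h1, _, hcube⟩) hA1 hA2 hA3
    refine hu.trans (le_of_eq (by ring))
  have h := fib (A := K) (B := Mon K 2 × Mon K (n - 3)) (fun b y =>
    (X - C b) ^ 2 ∣ derivative (y.1.1 ^ 2 * y.2.1)) _ key
  refine h.trans (le_of_eq ?_)
  rw [show n - 2 = n - 3 + 1 by omega, pow_succ]
  ring

end Pool.Agent.L7h14.AB
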